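import Pool.Agent.helper53.SP4.Spec

/-! Row sp4:S4G (MP_561ff4_al): conjugation automorphisms and `CSet`. -/

set_option autoImplicit false

namespace Pool.Agent.SP4

open Pool.Agent.GS

theorem S4G : S4G_stmt := by
  intro G _ _ x r k
  refine ⟨?_, ?_, ?_⟩
  · intro t
    ext g
    simp [MulAut.mul_apply, MulAut.inv_apply, MulAut.conj_apply, mul_assoc]
  · intro h Z hk hZ hm
    have h0 : ∀ i, (MulAut.conj (h i) : MulAut G) ∈ insert x (Set.range (MulAut.conj : G →* MulAut G)) :=
      fun i => Or.inr (Set.mem_range_self (h i))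
    refine ⟨hk, fun i => MulAut.conj (h i), fun i => Subgroup.subset_closure (h0 i), ?_⟩
    exact (hm _ (pow_orderOf_eq_one _)).trans (Subgroup.orderOf_dvd_natCard _ hZ)
  · rintro j ⟨hk, g, hg, hr⟩
    refine ⟨hk, g, fun i => ?_, ?_⟩
    · have h1 : Subgroup.closure (insert (x ^ j) (Set.range (MulAut.conj : G →* MulAut G))) ≤
          Subgroup.closure (insert x (Set.range (MulAut.conj : G →* MulAut G))) := by
        rw [Subgroup.closure_le]
        rintro y (rfl | hy)
        · have h5 : x ∈ insert x (Set.range (MulAut.conj : G →* MulAut G)) := Set.mem_insert _ _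
          exact Subgroup.pow_mem _ (Subgroup.subset_closure h5) j
        · exact Subgroup.subset_closure (Or.inr hy)
      exact h1 (hg i)
    · have h2 : Subgroup.closure (Set.range fun i => g i * x ^ j * (g i)⁻¹) ≤
          Subgroup.closure (Set.range fun i => g i * x * (g i)⁻¹) := by
        rw [Subgroup.closure_le]
        rintro y ⟨i, rfl⟩
        have h3 : g i * x ^ j * (g i)⁻¹ = (g i * x * (g i)⁻¹) ^ j := conj_pow.symm
        show g i * x ^ j * (g i)⁻¹ ∈ Subgroup.closure (Set.range fun i => g i * x * (g i)⁻¹)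
        rw [h3]
        have h4 : g i * x * (g i)⁻¹ ∈ Set.range (fun i => g i * x * (g i)⁻¹) :=
          Set.mem_range_self i
        exact Subgroup.pow_mem _ (Subgroup.subset_closure h4) j
      exact hr.trans (Subgroup.card_dvd_of_le h2)

end Pool.Agent.SP4
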